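import Mathlib
import Pool.Agent.Helper8K9.CY.Concl

/-!
# The main theorem for strongly irreducible eigenspaces
-/

set_option autoImplicit false
set_option linter.unusedSectionVars false

namespace Pool.Agent.Helper8K9.CD

open Module TensorProduct Polynomial
open Pool.Agent.H204R3.SP Pool.Agent.H204R3.GP Pool.Agent.W522.U Pool.Agent.TH118.CR
open Pool.Agent.TH118.WC
open Pool.Agent.Helper8K9.CR Pool.Agent.Helper8K9.CY

noncomputable section

variable {k V : Type} [Field k] [CharZero k] [AddCommGroup V] [Module k V]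
  [FiniteDimensional k V] {Γ : Type} [Group Γ] {ρ : Representation k Γ V} {χ : Γ →* k}
  {δ : End k V} {m : ℕ} [NeZero m] {ω : V →ₗ[k] V →ₗ[k] k}

/-- The structure of the representation over the algebraic closure, if the eigenspaces of `δ` are
strongly irreducible. -/
theorem over_closure_SI {Ω : Type} [Field Ω] [CharZero Ω] [Algebra k Ω] [IsAlgClosed Ω]
    (hm : 3 ≤ m) (hnd : ∀ u, (∀ v, ω v u = 0) → u = 0)
    (hω : ∀ s u v, ω (ρ s u) (ρ s v) = χ s * ω u v)
    (hδ : aeval δ (cyclotomic m k) = 0) (hc : ∀ s, ρ s * δ = δ * ρ s)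
    (hiso : ∀ u v, ω (δ u) (δ v) = ω u v) {γ F : Γ}
    (hγ : IsReflection m δ (ρ γ))
    (hSI0 : ∀ z : Ω, Eg Ω δ z ≠ ⊥ → SI (bcr ρ Ω) (Eg Ω δ z))
    {E : Type} [Field E] [CharZero E] [IsCyclotomicExtension {m} ℚ E] {ζ : E}
    (hζ : IsPrimitiveRoot ζ m) {Q : Polynomial E} {N : ℕ}
    (hF : HasPolynomial Ω ρ χ δ ζ Q N F) (hdeg : 3 ≤ Q.natDegree) (hsep : Q.Separable)
    (hroots : ∃ a b : AlgebraicClosure E, aeval a Q = 0 ∧ aeval b Q = 0 ∧
      ∀ k : ℕ, 0 < k → a ^ k ≠ b ^ k)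
    {n : (ZMod m)ˣ → ℤ} (hn : Nondegenerate n) (hval : HasValuations ζ Q n) :
    ∃ z0 : Ω, IsPrimitiveRoot z0 m ∧ (∀ t : (ZMod m)ˣ, SI (bcr ρ Ω) (Eg Ω δ (zt Ω z0 t))) ∧
      (∀ t t' : (ZMod m)ˣ, Tw (bcr ρ Ω) (fun _ => 1) (Eg Ω δ (zt Ω z0 t)) (Eg Ω δ (zt Ω z0 t')) →
        t = t') ∧
      (∀ t : (ZMod m)ˣ, Du (bcr ρ Ω) (bcc χ Ω) (Eg Ω δ (zt Ω z0 t)) (Eg Ω δ (zt Ω z0 (-t)))) ∧
      ∀ (j : ℕ) (φ : MultilinearMap Ω (fun _ : Fin j × Fin 2 => Ω ⊗[k] V) Ω),
        IsTate (bcr ρ Ω) (bcc χ Ω) j φ →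
        φ ∈ Submodule.span Ω (PT (bcr ρ Ω) (bcc χ Ω) j) := by
  classical
  -- embeddings
  have halgE : Algebra.IsAlgebraic ℚ E :=
    have := IsCyclotomicExtension.finiteDimensional {m} ℚ E
    inferInstance
  have hemb : Nonempty (AlgebraicClosure E →+* Ω) := by
    have h1 : Algebra.IsAlgebraic ℚ (AlgebraicClosure E) := Algebra.IsAlgebraic.trans ℚ E _
    exact ⟨(IsAlgClosed.lift : AlgebraicClosure E →ₐ[ℚ] Ω).toRingHom⟩
  obtain ⟨J⟩ := hemb
  let ι0 : E →+* Ω := J.comp (algebraMap E (AlgebraicClosure E))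
  set z0 : Ω := ι0 ζ with hz0
  have hz : IsPrimitiveRoot z0 m := hζ.map_of_injective ι0.injective
  choose σ hσ using fun t : (ZMod m)ˣ => exists_conj hζ t
  let ι : (ZMod m)ˣ → E →+* Ω := fun t => ι0.comp ((σ t : E ≃+* E) : E →+* E)
  have hι : ∀ t, ι t ζ = zt Ω z0 t := by
    intro t
    change ι0 (σ t ζ) = _
    rw [hσ, map_pow]
    rfl
  let R := bcr ρ Ω
  let U : (ZMod m)ˣ → Submodule Ω (Ω ⊗[k] V) := fun t => Eg Ω δ (zt Ω z0 t)
  have hst : ∀ t, ∀ g : Γ, ∀ u ∈ U t, R g u ∈ U t := fun t g => Eg_stable hc _ g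
  have hcp : ∀ t, charpolyOn (R F) (U t) (hst t F) = Q.map (ι t) := by
    intro t
    have h1 := hF.charpoly (ι t)
    rw [hι t] at h1
    exact h1 (hst t F)
  have hrk : ∀ t, Module.finrank Ω (U t) = Q.natDegree := by
    intro t
    have h1 := charpolyOn_natDegree (hst t F)
    rw [← h1, hcp, natDegree_map]
  -- the form
  have hnd' := nondeg_left ω hnd
  have hl1 : ∀ u, (∀ v, bcb Ω ω u v = 0) → u = 0 := fun u hu => bcb_nondeg_left ω hnd hnd' u hu
  have hr1 : ∀ u, (∀ v, bcb Ω ω v u = 0) → u = 0 := fun u hu => bcb_nondeg_right ω hnd hnd' u hu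
  have hinv := bcb_inv (Ω := Ω) ρ χ ω hω
  have hninv : ∀ t : (ZMod m)ˣ, (zt Ω z0 t)⁻¹ = zt Ω z0 (-t) := by
    intro t
    apply inv_eq_of_mul_eq_one_right
    unfold zt
    rw [← pow_add, hz.pow_eq_one_iff_dvd, ← ZMod.natCast_eq_zero_iff, Nat.cast_add,
      ZMod.natCast_zmod_val, ZMod.natCast_zmod_val, Units.val_neg, add_neg_cancel]
  have hSI : ∀ t, SI R (U t) := by
    intro t
    refine hSI0 _ fun h => ?_
    have h1 := hrk t
    have h2 : Module.finrank Ω (U t) = 0 := by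
      change Module.finrank Ω (Eg Ω δ (zt Ω z0 t)) = 0
      rw [h]
      exact finrank_bot _ _
    omega
  have hsup : ⨆ t, U t = ⊤ := iSup_Eg δ hz hδ
  have hpr : HasProj R := hasProj_of_SI hst hSI hsup
  have hE : StronglyIrreducibleSum R U :=
    ⟨hSI, fun t => by rw [hrk t]; exact hdeg, hsup⟩
  have hrefl : HasReflections R U := by
    obtain ⟨a, s, ha, hs, hr⟩ := reflects (Ω := Ω) hm hδ hc hγ
    intro t
    refine ⟨γ, ⟨2 * m, by positivity, ?_⟩, fun t => s * (zt Ω z0 t) ^ a, ?_, ?_, ?_, ?_⟩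
    · have h1 : ∀ x ∈ (⨆ t, U t), (R γ ^ (2 * m)) x = x := by
        intro x hx
        refine Submodule.iSup_induction U (motive := fun x => (R γ ^ (2 * m)) x = x) hx
          (fun t x hx => ?_) (map_zero _) (fun x y hx hy => ?_)
        · obtain ⟨d, φ, hd, hφ, h2⟩ := hr _ (zt_prim hz t)
          have h3 := refl_pow hd hφ h2 (2 * m) x hx
          have h4 : (s * zt Ω z0 t ^ a) ^ (2 * m) = 1 := by
            have h5 : s ^ 2 = 1 := by rcases hs with rfl | rfl <;> norm_num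
            rw [mul_pow, pow_mul, h5, one_pow, one_mul, ← pow_mul,
              show a * (2 * m) = m * (a * 2) by ring, pow_mul, (zt_prim hz t).pow_eq_one, one_pow]
          rw [h4, sub_self, zero_mul, zero_smul, add_zero, one_pow, one_smul, map_pow] at h3
          exact h3
        · rw [map_add, hx, hy]
      rw [hsup] at h1
      exact LinearMap.ext fun x => h1 x trivial
    · intro j
      obtain ⟨d, φ, hd, hφ, h2⟩ := hr _ (zt_prim hz j)
      exact ⟨1, d, φ, hd, hφ, h2⟩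
    · exact (root_ne hm (zt_prim hz t) ha hs).1
    · exact (root_ne hm (zt_prim hz t) ha hs).2
    · intro j hj h
      apply hj
      have hs0 : s ≠ 0 := by rcases hs with rfl | rfl <;> norm_num
      exact zt_pow_inj hz ha (mul_left_cancel₀ hs0 h)
  have hsepU : ∀ (t t' : (ZMod m)ˣ) (ψ : Γ → Ω), Tw R ψ (U t) (U t') → t = t' := by
    intro i j ψ h
    by_contra hij
    obtain ⟨γ, -, ε, hr, hε1, -, hε⟩ := hrefl i
    exact sep (hE.1 i) (hE.1 j) (hE.2.1 i) (hr i) (hr j) hε1 (hε j (Ne.symm hij)) ψ h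
  have hFr : HasFrobenii R U := by
    refine hasFrobenii F (fun t => hst t F) hsup (fun t => ?_) (fun t => ?_)
    · rw [hcp]
      exact hsep.map
    · obtain ⟨a, b, ha, hb, hab⟩ := hroots
      -- extend the conjugate embedding to the algebraic closure
      let alg : Algebra E Ω := (ι t).toAlgebra
      have h1 : Nonempty (AlgebraicClosure E →ₐ[E] Ω) := ⟨IsAlgClosed.lift⟩
      obtain ⟨J'⟩ := h1
      have h2 : ∀ x : AlgebraicClosure E, aeval x Q = 0 → (Q.map (ι t)).IsRoot (J' x) := by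
        intro x hx
        rw [IsRoot.def, eval_map]
        change aeval (J' x) Q = 0
        rw [aeval_algHom_apply, hx, map_zero]
      refine ⟨J' a, J' b, ?_, ?_, fun k hk h => hab k hk ?_⟩
      · rw [hcp]
        exact h2 a ha
      · rw [hcp]
        exact h2 b hb
      · rw [← map_pow, ← map_pow] at h
        exact J'.toRingHom.injective h
  have hdual : ∀ t, Du R (bcc χ Ω) (U t) (U (-t)) := by
    intro t
    refine ⟨⊤, inferInstance, bcb Ω ω, ?_, fun g _ u _ v _ => hinv g u v⟩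
    by_contra hcon
    push Not at hcon
    obtain ⟨u, hu, hu0⟩ := Submodule.exists_mem_ne_zero_of_ne_bot (hSI t).1
    apply hu0
    refine eq_zero_of_orth hz hδ hiso hl1 hu fun v hv => ?_
    rw [hninv] at hv
    exact hcon u hu v hv
  -- no Weil families
  have hχF : (N : Ω) ≠ 0 := by
    have h1 : bcc χ Ω F = (N : Ω) := by
      rw [bcc_apply, hF.multiplier, map_natCast]
    rw [← h1]
    exact χne F
  have hNE : (N : E) ≠ 0 := by
    intro h
    apply hχF
    have h1 := congrArg ι0 h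
    rwa [map_natCast, map_zero] at h1
  have hno : ∀ (P : Type) [Fintype P] [Nonempty P] (L : P → Submodule Ω (Ω ⊗[k] V)),
      ¬Pool.Agent.Y126.Notions.IsWeilFamily R (bcc χ Ω) L := by
    intro P _ _ L
    refine noWeil hpr hE hst hdual F (fun M hM c P _ _ i h => ?_) P L
    obtain ⟨c', hc'⟩ := sum_const hζ hval σ hσ Q.natDegree M hM
      (Units.mk0 ((N : E) ^ (M * c)) (pow_ne_zero _ hNE))
      (fun t => by rw [Units.val_mk0, map_pow, map_natCast]) i (by
        apply ι0.injective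
        rw [map_prod, Units.val_mk0, map_pow, map_natCast]
        have h1 : ∀ p, LinearMap.det (M := U (i p)) ((R F).restrict (hst (i p) F)) =
            ι0 ((-1) ^ Q.natDegree * σ (i p) (Q.coeff 0)) := by
          intro p
          rw [det_of_charpoly (hst (i p) F), hcp, hrk, coeff_map, map_mul, map_pow, map_neg, map_one]
          rfl
        have h2 : bcc χ Ω F = (N : Ω) := by
          rw [bcc_apply, hF.multiplier, map_natCast]
        rw [Finset.prod_congr rfl fun p _ => by rw [h1 p], h2] at h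
        rw [← h]
        exact Finset.prod_congr rfl fun p _ => by rw [map_pow])
    exact exists_neg hn c' i hc'
  refine ⟨z0, hz, hSI, fun t t' h => hsepU t t' _ h, hdual, fun j φ hφ => ?_⟩
  exact Pool.Agent.Y126.Toric.pt_of_noWeil hno (refl_det _ hl1 hinv hpr hE hrefl hFr φ hφ)

/-- The conclusions, if the representation is semisimple and if the operators that commute with a
subgroup of finite index are polynomials in `δ`. -/
theorem conclusions_of_end {Ω : Type} [Field Ω] [CharZero Ω] [Algebra k Ω] [IsAlgClosed Ω]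
    [Algebra.IsAlgebraic k Ω]
    (hm : 3 ≤ m) (hnd : ∀ u, (∀ v, ω v u = 0) → u = 0)
    (hω : ∀ s u v, ω (ρ s u) (ρ s v) = χ s * ω u v)
    (hδ : aeval δ (cyclotomic m k) = 0) (hc : ∀ s, ρ s * δ = δ * ρ s)
    (hiso : ∀ u v, ω (δ u) (δ v) = ω u v) {γ F : Γ}
    (hγ : IsReflection m δ (ρ γ)) (hss : FiniteIndexSemisimple ρ)
    (hend : ∀ Δ : Subgroup Γ, Δ.FiniteIndex → ∀ P : Module.End k V,
      (∀ s ∈ Δ, P * ρ s = ρ s * P) → P ∈ Algebra.adjoin k {δ})
    {E : Type} [Field E] [CharZero E] [IsCyclotomicExtension {m} ℚ E] {ζ : E}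
    (hζ : IsPrimitiveRoot ζ m) {Q : Polynomial E} {N : ℕ}
    (hF : HasPolynomial Ω ρ χ δ ζ Q N F) (hdeg : 3 ≤ Q.natDegree) (hsep : Q.Separable)
    (hroots : ∃ a b : AlgebraicClosure E, aeval a Q = 0 ∧ aeval b Q = 0 ∧
      ∀ k : ℕ, 0 < k → a ^ k ≠ b ^ k)
    {n : (ZMod m)ˣ → ℤ} (hn : Nondegenerate n) (hval : HasValuations ζ Q n) :
    FiniteIndexSemisimple ρ ∧
    (∀ Δ : Subgroup Γ, Δ.FiniteIndex → ∀ A : End k V, (∀ s ∈ Δ, A * ρ s = ρ s * A) →
      A ∈ Algebra.adjoin k {δ}) ∧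
    (∀ (j : ℕ) (φ : MultilinearMap k (fun _ : Fin j × Fin 2 => V) k) (Δ : Subgroup Γ),
      Δ.FiniteIndex → (∀ s ∈ Δ, ∀ v, φ (fun l => ρ s (v l)) = χ s ^ j * φ v) →
      φ ∈ Submodule.span k (GraphProducts ω δ j)) ∧
    (∀ (j : ℕ) (φ : MultilinearMap k (fun _ : Fin j => V) k) (ψ : Γ → k) (Δ : Subgroup Γ),
      Odd j → Δ.FiniteIndex → (∀ s ∈ Δ, ψ s ^ 2 = χ s) →
      (∀ s ∈ Δ, ∀ v, φ (fun l => ρ s (v l)) = ψ s ^ j * φ v) → φ = 0) := by
  have hpr : HasProj (bcr ρ Ω) := hasProj_bcr ρ Ω hss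
  obtain ⟨z0, hz, hSI, hsepU, hdual, hall⟩ := over_closure_SI (Ω := Ω) hm hnd hω hδ hc hiso hγ
    (fun z hz => Eg_SI hpr hc hend hz) hζ hF hdeg hsep hroots hn hval
  exact conclusions hm hnd hω hδ hc hz hSI hsepU hdual hall

end

end Pool.Agent.Helper8K9.CD
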