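import Mathlib
import Pool.Agent.Y142.SI.Fin
import Pool.Agent.H204R3.GP.Defs

/-!
# From open subgroups to subgroups of finite index, and from matrices to linear maps
-/

set_option autoImplicit false
set_option linter.unusedSectionVars false

namespace Pool.Agent.Helper8K9.CD

open Module Matrix Polynomial Filter Topology NumberField IsDedekindDomain
open Pool.Agent.H204R3.GP

noncomputable section

/-- The representation given by matrices. -/
def repOf {F : Type} [Field F] {N : ℕ} {Γ : Type} [Group Γ]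
    (ρ : Γ →* Matrix (Fin N) (Fin N) F) : Representation F Γ (Fin N → F) where
  toFun g := Matrix.toLin' (ρ g)
  map_one' := by rw [map_one]; exact Matrix.toLin'_one
  map_mul' g h := by rw [map_mul]; exact Matrix.toLin'_mul _ _

theorem repOf_apply {F : Type} [Field F] {N : ℕ} {Γ : Type} [Group Γ]
    (ρ : Γ →* Matrix (Fin N) (Fin N) F) (g : Γ) (v : Fin N → F) : repOf ρ g v = ρ g *ᵥ v :=
  Matrix.toLin'_apply _ _

/-- The bilinear form with the matrix `J`. -/
def formOf {F : Type} [Field F] {N : ℕ} (J : Matrix (Fin N) (Fin N) F) :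
    (Fin N → F) →ₗ[F] (Fin N → F) →ₗ[F] F :=
  Matrix.toLinearMap₂' F J

theorem formOf_apply {F : Type} [Field F] {N : ℕ} (J : Matrix (Fin N) (Fin N) F)
    (u v : Fin N → F) : formOf J u v = u ⬝ᵥ J *ᵥ v :=
  Matrix.toLinearMap₂'_apply' J u v

theorem form_sim {F : Type} [Field F] {N : ℕ} {J g : Matrix (Fin N) (Fin N) F} {c : F}
    (h : gᵀ * J * g = c • J) (u v : Fin N → F) :
    formOf J (g *ᵥ u) (g *ᵥ v) = c * formOf J u v := by
  rw [formOf_apply, formOf_apply, ← Matrix.vecMul_transpose, ← Matrix.dotProduct_mulVec,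
    Matrix.mulVec_mulVec, Matrix.mulVec_mulVec, h, Matrix.smul_mulVec,
    dotProduct_smul, smul_eq_mul]

theorem form_nondeg {F : Type} [Field F] {N : ℕ} {J : Matrix (Fin N) (Fin N) F}
    (h : J.det ≠ 0) (u : Fin N → F) (hu : ∀ v, formOf J v u = 0) : u = 0 := by
  have h1 : J *ᵥ u = 0 := by
    funext i
    have h2 := hu (Pi.single i 1)
    rw [formOf_apply, single_one_dotProduct] at h2
    exact h2
  exact Matrix.eq_zero_of_mulVec_eq_zero h h1

section top

variable {ℓ : ℕ} [Fact ℓ.Prime] {N : ℕ} {Γ : Type} [Group Γ] [TopologicalSpace Γ]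
  [IsTopologicalGroup Γ]

theorem of_goodEnd (ρ : Γ →* Matrix (Fin N) (Fin N) ℚ_[ℓ]) (hρ : Continuous ρ)
    (E : IntermediateField ℚ (AlgebraicClosure ℚ)) (ε : E →+* Matrix (Fin N) (Fin N) ℚ_[ℓ])
    (hgood : Pool.Agent.Y142.SI.GoodEnd ℓ E ρ ε) :
    FiniteIndexSemisimple (repOf ρ) ∧ ∀ Δ : Subgroup Γ, Δ.FiniteIndex →
      ∀ P : Module.End ℚ_[ℓ] (Fin N → ℚ_[ℓ]), (∀ s ∈ Δ, P * repOf ρ s = repOf ρ s * P) →
      LinearMap.toMatrix' P ∈ Submodule.span ℚ_[ℓ] (Set.range ε) := by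
  have hcl : ∀ Δ : Subgroup Γ, Δ.FiniteIndex →
      IsOpen (Δ.topologicalClosure : Set Γ) := by
    intro Δ hΔ
    have h1 : Δ.topologicalClosure.FiniteIndex :=
      Subgroup.finiteIndex_of_le Δ.le_topologicalClosure
    exact Subgroup.isOpen_of_isClosed_of_finiteIndex _ Δ.isClosed_topologicalClosure
  have hst : ∀ (Δ : Subgroup Γ) (W : Submodule ℚ_[ℓ] (Fin N → ℚ_[ℓ])),
      (∀ s ∈ Δ, ∀ u ∈ W, repOf ρ s u ∈ W) → ∀ σ ∈ Δ.topologicalClosure, ∀ w ∈ W, ρ σ *ᵥ w ∈ W := by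
    intro Δ W hW σ hσ w hw
    have hcl : IsClosed {σ : Γ | ρ σ *ᵥ w ∈ W} := by
      have h1 : IsClosed (W : Set (Fin N → ℚ_[ℓ])) := Submodule.closed_of_finiteDimensional W
      exact h1.preimage (Continuous.matrix_mulVec hρ continuous_const)
    have h1 : (Δ.topologicalClosure : Set Γ) ⊆ {σ : Γ | ρ σ *ᵥ w ∈ W} := by
      rw [Subgroup.topologicalClosure_coe]
      refine closure_minimal (fun s hs => ?_) hcl
      have h2 := hW s hs w hw
      rwa [repOf_apply] at h2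
    exact h1 hσ
  refine ⟨fun Δ hΔ W hW => ?_, fun Δ hΔ P hP => ?_⟩
  · obtain ⟨W', h1, h2⟩ := (hgood Δ.topologicalClosure (hcl Δ hΔ)).2 W (hst Δ W hW)
    exact ⟨W', fun s hs u hu => by
      rw [repOf_apply]
      exact h1 s (Δ.le_topologicalClosure hs) u hu, h2⟩
  · refine (hgood Δ.topologicalClosure (hcl Δ hΔ)).1 _ fun σ hσ => ?_
    have hcl : IsClosed {σ : Γ | LinearMap.toMatrix' P * ρ σ = ρ σ * LinearMap.toMatrix' P} :=
      isClosed_eq (continuous_const.mul hρ) (hρ.mul continuous_const)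
    have h1 : (Δ.topologicalClosure : Set Γ) ⊆
        {σ : Γ | LinearMap.toMatrix' P * ρ σ = ρ σ * LinearMap.toMatrix' P} := by
      rw [Subgroup.topologicalClosure_coe]
      refine closure_minimal (fun s hs => ?_) hcl
      have h2 := congrArg LinearMap.toMatrix' (hP s hs)
      rw [Module.End.mul_eq_comp, Module.End.mul_eq_comp, LinearMap.toMatrix'_comp,
        LinearMap.toMatrix'_comp] at h2
      change LinearMap.toMatrix' P * LinearMap.toMatrix' (Matrix.toLin' (ρ s)) =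
        LinearMap.toMatrix' (Matrix.toLin' (ρ s)) * LinearMap.toMatrix' P at h2
      rwa [LinearMap.toMatrix'_toLin'] at h2
    exact h1 hσ

end top

section coef

variable {ℓ : ℕ} [Fact ℓ.Prime] {N : ℕ} {m : ℕ} [NeZero m]

/-- The operators of the coefficients are polynomials in the operator of a primitive root of unity. -/
theorem mem_adjoin_of_span {E : Type} [Field E] [CharZero E] [IsCyclotomicExtension {m} ℚ E]
    {ζ : E} (hζ : IsPrimitiveRoot ζ m) (ε : E →+* Matrix (Fin N) (Fin N) ℚ_[ℓ])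
    {P : Module.End ℚ_[ℓ] (Fin N → ℚ_[ℓ])}
    (hP : LinearMap.toMatrix' P ∈ Submodule.span ℚ_[ℓ] (Set.range ε)) :
    P ∈ Algebra.adjoin ℚ_[ℓ] {Matrix.toLin' (ε ζ)} := by
  have h1 : ∀ a : E, Matrix.toLin' (ε a) ∈ Algebra.adjoin ℚ_[ℓ] {Matrix.toLin' (ε ζ)} := by
    intro a
    have ha : a ∈ Algebra.adjoin ℚ {ζ} := by
      rw [IsCyclotomicExtension.adjoin_primitive_root_eq_top hζ]
      trivial
    induction ha using Algebra.adjoin_induction with
    | mem x hx =>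
      rw [Set.mem_singleton_iff.1 hx]
      exact Algebra.subset_adjoin rfl
    | algebraMap r =>
      have h2 : ε (algebraMap ℚ E r) = algebraMap ℚ_[ℓ] _ (r : ℚ_[ℓ]) := by
        have h3 : ε.comp (algebraMap ℚ E) =
            (algebraMap ℚ_[ℓ] (Matrix (Fin N) (Fin N) ℚ_[ℓ])).comp (algebraMap ℚ ℚ_[ℓ]) :=
          RingHom.ext_rat _ _
        have h4 := congrArg (fun f : ℚ →+* Matrix (Fin N) (Fin N) ℚ_[ℓ] => f r) h3
        rw [eq_ratCast (algebraMap ℚ E) r]
        simpa using h4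
      rw [h2]
      have h3 : Matrix.toLin' (algebraMap ℚ_[ℓ] (Matrix (Fin N) (Fin N) ℚ_[ℓ]) (r : ℚ_[ℓ])) =
          algebraMap ℚ_[ℓ] (Module.End ℚ_[ℓ] (Fin N → ℚ_[ℓ])) (r : ℚ_[ℓ]) := by
        rw [Algebra.algebraMap_eq_smul_one, Algebra.algebraMap_eq_smul_one, map_smul,
          Matrix.toLin'_one]
        rfl
      rw [h3]
      exact Subalgebra.algebraMap_mem _ _
    | add x y _ _ hx hy =>
      rw [map_add, map_add]
      exact Subalgebra.add_mem _ hx hy
    | mul x y _ _ hx hy =>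
      rw [map_mul, Matrix.toLin'_mul]
      exact Subalgebra.mul_mem _ hx hy
  have h2 : ∀ X ∈ Submodule.span ℚ_[ℓ] (Set.range ε),
      Matrix.toLin' X ∈ Algebra.adjoin ℚ_[ℓ] {Matrix.toLin' (ε ζ)} := by
    intro X hX
    induction hX using Submodule.span_induction with
    | mem x hx =>
      obtain ⟨a, rfl⟩ := hx
      exact h1 a
    | zero => rw [map_zero]; exact Subalgebra.zero_mem _
    | add x y _ _ hx hy => rw [map_add]; exact Subalgebra.add_mem _ hx hy
    | smul c x _ hx => rw [map_smul]; exact Subalgebra.smul_mem _ hx c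
  have h3 := h2 _ hP
  rwa [Matrix.toLin'_toMatrix'] at h3

/-- The operator of a primitive root of unity is a root of the cyclotomic polynomial. -/
theorem aeval_coef {E : Type} [Field E] [CharZero E] {ζ : E} (hζ : IsPrimitiveRoot ζ m)
    (ε : E →+* Matrix (Fin N) (Fin N) ℚ_[ℓ]) :
    aeval (Matrix.toLin' (ε ζ)) (cyclotomic m ℚ_[ℓ]) = 0 := by
  have h1 : (cyclotomic m ℤ).eval₂ (Int.castRingHom E) ζ = 0 := by
    have h2 := hζ.isRoot_cyclotomic (NeZero.pos m)
    rw [IsRoot.def, ← map_cyclotomic_int, eval_map] at h2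
    exact h2
  have h2 := congrArg ε h1
  rw [hom_eval₂, map_zero] at h2
  let T : Matrix (Fin N) (Fin N) ℚ_[ℓ] ≃ₐ[ℚ_[ℓ]] Module.End ℚ_[ℓ] (Fin N → ℚ_[ℓ]) :=
    Matrix.toLinAlgEquiv'
  have h3 := congrArg T h2
  rw [map_zero] at h3
  have h4 : T ((cyclotomic m ℤ).eval₂ (ε.comp (Int.castRingHom E)) (ε ζ)) =
      (cyclotomic m ℤ).eval₂ ((T : _ →+* _).comp (ε.comp (Int.castRingHom E))) (T (ε ζ)) :=
    hom_eval₂ _ _ (T : Matrix (Fin N) (Fin N) ℚ_[ℓ] →+* Module.End ℚ_[ℓ] (Fin N → ℚ_[ℓ])) _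
  rw [h4] at h3
  have h5 : (T : Matrix (Fin N) (Fin N) ℚ_[ℓ] →+* Module.End ℚ_[ℓ] (Fin N → ℚ_[ℓ])).comp
      (ε.comp (Int.castRingHom E)) =
      (algebraMap ℚ_[ℓ] (Module.End ℚ_[ℓ] (Fin N → ℚ_[ℓ]))).comp (Int.castRingHom ℚ_[ℓ]) :=
    RingHom.ext_int _ _
  rw [h5] at h3
  rw [← map_cyclotomic_int, aeval_def, eval₂_map]
  exact h3

end coef

end

end Pool.Agent.Helper8K9.CD
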