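import Pool.Agent.Y142.SI.Fin
import Pool.Agent.Y405.ZO.Frob
import Pool.Agent.Y484.ZI.IntRes
import Pool.Agent.Y726.ZI.Cheb
import Pool.Agent.Y681.ZI.Dens
import Pool.Agent.Y537.ZI.Multi
import Pool.Agent.Y614.ZD.Badd
import Pool.Agent.Y100.ZD.Sub
import Pool.Agent.Y255.SS.LF
import Pool.Agent.Y297.SS.CF
import Pool.Agent.Y708.SS.Loc
import Pool.Agent.Y936.SS.Logr
import Pool.Agent.Y518.SS.Krs
import Pool.Agent.Y737.SS.Chara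
import Pool.Agent.Y932.SI.Subf
import Pool.Agent.Y421.SI.EF
import Pool.Agent.Y641.SI.Trd
import Pool.Agent.Y949.SI.Ende
import Pool.Agent.Y246.SU.DCT
import Pool.Agent.Helper8K9.CD.Top
import Pool.Agent.Helper8K9.CD.Loc

/-!
# The endomorphisms at 100 percent of the primes
-/

set_option autoImplicit false

open Matrix Polynomial Filter Topology NumberField IsDedekindDomain
open Pool.Agent.Y142.ZO Pool.Agent.Y142.ZI
open Pool.Agent.Y142.ZS (NiceP)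
open Pool.Agent.Y142.SS Pool.Agent.Y142.SI

namespace Pool.Agent.Helper8K9.CD

variable {K : Type} [Field K] [NumberField K] {N : ℕ} {S : Set (HeightOneSpectrum (𝓞 K))}
  {P : HeightOneSpectrum (𝓞 K) → ℚ[X]}
  {Γ : Type} [Group Γ] [TopologicalSpace Γ] [IsTopologicalGroup Γ] [CompactSpace Γ]

/-- The theorem on endomorphisms at 100 percent of the primes, with its tasks. -/
theorem goodEnd_density (hS : S.Finite) (s : GK K →* Γ) (hs : Continuous s)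
    (ρ : ∀ (ℓ : ℕ) [Fact ℓ.Prime], Γ →* Matrix (Fin N) (Fin N) ℚ_[ℓ])
    (hsys : ∀ (ℓ : ℕ) [Fact ℓ.Prime], GenSys K s N ℓ (ρ ℓ) S P)
    (E : IntermediateField ℚ QQ) (hfin : FiniteDimensional ℚ E) (hE : Normal ℚ E)
    (n : ℕ) (hn : 0 < n) (hNn : N = n * Module.finrank ℚ E)
    (ε : ∀ (ℓ : ℕ) [Fact ℓ.Prime], E →+* Matrix (Fin N) (Fin N) ℚ_[ℓ])
    (hε : ∀ (ℓ : ℕ) [Fact ℓ.Prime] (a : E) (γ : Γ), ε ℓ a * ρ ℓ γ = ρ ℓ γ * ε ℓ a)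
    (htr : ∀ (ℓ : ℕ) [Fact ℓ.Prime] (a : E),
      (ε ℓ a).trace = (n : ℚ_[ℓ]) * ((Algebra.trace ℚ E a : ℚ) : ℚ_[ℓ]))
    {m : ℕ} (u : Fin (m + 1) → HeightOneSpectrum (𝓞 K)) (hu : ∀ i, NiceP S P (u i))
    (hI : ∀ (g : GK ℚ) (d : ℕ), 0 < d → d < N → ¬ n * ordE E g ∣ d →
      ∃ v, NiceP S P v ∧ ∃ w ∈ NoSet d (P v), w⁻¹ * g ∈ Subgroup.closure (⋃ i, Fix (P (u i))))
    (hII : ∀ g : GK ℚ, ∃ v, NiceP S P v ∧ ∃ w ∈ Cl2 E n (P v),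
      w⁻¹ * g ∈ Subgroup.closure (⋃ i, Fix (P (u i)))) :
    Pool.Agent.Y142.ZI.DensityZero {ℓ | ∃ _ : Fact ℓ.Prime, ¬ GoodEnd ℓ E (ρ ℓ) (ε ℓ)} := by
  have hFROB : Pool.Agent.Y142.ZO.S_FROB := Pool.Agent.Y405.ZO.t
  have hINT : Pool.Agent.Y142.ZI.S_INT := Pool.Agent.Y484.ZI.t1
  have hCHEB : Pool.Agent.Y142.ZI.S_CHEB := Pool.Agent.Y726.ZI.t1
  have hDENS2 : Pool.Agent.Y142.ZI.S_DENS2 := Pool.Agent.Y681.ZI.t hCHEB
  have hMULTI : Pool.Agent.Y142.ZI.S_MULTI := Pool.Agent.Y537.ZI.t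
  have hLF : Pool.Agent.Y142.SS.S_LF := Pool.Agent.Y255.SS.t
  have hCF : Pool.Agent.Y142.SS.S_CF := Pool.Agent.Y297.SS.t hLF
  have hLOC : Pool.Agent.Y142.SS.S_LOC := Pool.Agent.Y708.SS.Loc.t hCF
  have hLOGR : Pool.Agent.Y142.SS.S_LOGR := Pool.Agent.Y936.SS.t
  have hKRS : Pool.Agent.Y142.SS.S_KRS := Pool.Agent.Y518.SS.t
  have hCHARA : Pool.Agent.Y142.SS.S_CHARA := Pool.Agent.Y737.SS.Chara.t
  have hBADD : Pool.Agent.Y142.ZD.S_BADD := Pool.Agent.Y614.ZD.t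
  have hSUB : Pool.Agent.Y142.ZD.S_SUB := Pool.Agent.Y100.ZD.t
  have hSUBF : Pool.Agent.Y142.SI.S_SUBF := Pool.Agent.Y932.SI.Subf.t hLF hCF
  have hEF : Pool.Agent.Y142.SI.S_EF := Pool.Agent.Y421.SI.EF.t hLOC
  have hTRD : Pool.Agent.Y142.SI.S_TRD := Pool.Agent.Y641.SI.t
  have hENDE : Pool.Agent.Y142.SI.S_ENDE := Pool.Agent.Y949.SI.t
  exact densitySI hLOC hLOGR hKRS hCHARA hMULTI hFROB hINT hDENS2 hBADD hSUB hSUBF hEF hTRD hENDE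
    hS s hs ρ hsys E hfin hE n hn hNn ε hε htr u hu hI hII

/-- A finite set has density zero. -/
theorem density_finite {B : Set ℕ} (hB : B.Finite) : Pool.Agent.Y142.ZI.DensityZero B := by
  unfold Pool.Agent.Y142.ZI.DensityZero
  have h1 : Tendsto (fun n : ℕ => (B.ncard : ℝ) / (Nat.primeCounting n : ℝ)) atTop (𝓝 0) :=
    tendsto_const_nhds.div_atTop
      (tendsto_natCast_atTop_atTop.comp Nat.tendsto_primeCounting)
  refine squeeze_zero (fun n => by positivity) (fun n => ?_) h1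
  have h2 : Nat.card {ℓ : ℕ // ℓ ≤ n ∧ ℓ ∈ B} ≤ B.ncard := by
    have h3 : Nat.card {ℓ : ℕ // ℓ ≤ n ∧ ℓ ∈ B} = ({ℓ : ℕ | ℓ ≤ n ∧ ℓ ∈ B}).ncard := rfl
    rw [h3]
    exact Set.ncard_le_ncard (fun ℓ hℓ => hℓ.2) hB
  gcongr

end Pool.Agent.Helper8K9.CD
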